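import Mathlib

/-!
# `Proj` of a surjective graded ring homomorphism is a closed immersion
-/

set_option linter.all false

open AlgebraicGeometry CategoryTheory HomogeneousIdeal

namespace Pool.Agent.Lib.MP_43d240_ag.FRZ

universe u

variable {A B σ τ : Type u} [CommRing A] [SetLike σ A] [AddSubgroupClass σ A]
  [CommRing B] [SetLike τ B] [AddSubgroupClass τ B]
  {𝒜 : ℕ → σ} {ℬ : ℕ → τ} [GradedRing 𝒜] [GradedRing ℬ]

lemma exists_homogeneous_preimage (f : 𝒜 →+*ᵍ ℬ) (hf : Function.Surjective f) {n : ℕ} {b : B}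
    (hb : b ∈ ℬ n) : ∃ a ∈ 𝒜 n, f a = b := by
  classical
  obtain ⟨a, rfl⟩ := hf b
  refine ⟨(DirectSum.decompose 𝒜 a n : A), SetLike.coe_mem _, ?_⟩
  have h1 : a = ∑ i ∈ (DirectSum.decompose 𝒜 a).support, (DirectSum.decompose 𝒜 a i : A) :=
    (DirectSum.sum_support_decompose 𝒜 a).symm
  have h2 : f a = ∑ i ∈ (DirectSum.decompose 𝒜 a).support, f (DirectSum.decompose 𝒜 a i : A) := by
    conv_lhs => rw [h1]
    rw [map_sum]
  have h3 : (DirectSum.decompose ℬ (f a) n : B) = f (DirectSum.decompose 𝒜 a n : A) := by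
    rw [h2, DirectSum.decompose_sum, DFinsupp.finset_sum_apply, AddSubmonoidClass.coe_finset_sum]
    rw [Finset.sum_eq_single n]
    · exact DirectSum.decompose_of_mem_same ℬ (f.2 (SetLike.coe_mem _))
    · intro j _ hj
      exact DirectSum.decompose_of_mem_ne ℬ (f.2 (SetLike.coe_mem _)) hj
    · intro hn
      rw [DFinsupp.notMem_support_iff] at hn
      rw [hn]
      simp
  rw [← h3]
  exact DirectSum.decompose_of_mem_same ℬ hb

lemma irrelevant_le_of_surjective (f : 𝒜 →+*ᵍ ℬ) (hf : Function.Surjective f) :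
    HomogeneousIdeal.irrelevant ℬ ≤ HomogeneousIdeal.map f (HomogeneousIdeal.irrelevant 𝒜) := by
  rw [← toIdeal_le_toIdeal_iff]
  rw [toIdeal_irrelevant_le]
  intro i hi x hx
  obtain ⟨a, ha, rfl⟩ := exists_homogeneous_preimage f hf hx
  have : a ∈ HomogeneousIdeal.irrelevant 𝒜 := by
    rw [HomogeneousIdeal.mem_irrelevant_iff]
    exact DirectSum.decompose_of_mem_ne 𝒜 ha hi.ne'
  exact Ideal.mem_map_of_mem _ this

lemma awayMap_surjective (f : 𝒜 →+*ᵍ ℬ) (hf : Function.Surjective f) {i : ℕ} (s : A)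
    (hs : s ∈ 𝒜 i) : Function.Surjective (HomogeneousLocalization.Away.map f s) := by
  intro z
  obtain ⟨n, b, hb, rfl⟩ := z.mk_surjective _ (f.2 hs)
  obtain ⟨a, ha, rfl⟩ := exists_homogeneous_preimage f hf hb
  refine ⟨HomogeneousLocalization.Away.mk 𝒜 hs n a ha, ?_⟩
  rw [HomogeneousLocalization.Away.map_mk]

theorem isClosedImmersion_map (f : 𝒜 →+*ᵍ ℬ) (hf : Function.Surjective f)
    (h : HomogeneousIdeal.irrelevant ℬ ≤
      HomogeneousIdeal.map f (HomogeneousIdeal.irrelevant 𝒜)) :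
    IsClosedImmersion (Proj.map f h) := by
  classical
  -- the affine cover of the target
  let ι := Σ i : PNat, 𝒜 i
  let U : ι → (Proj 𝒜).affineOpens := fun s =>
    ⟨Proj.basicOpen 𝒜 (s.2 : A), Proj.isAffineOpen_basicOpen 𝒜 _ s.2.2 s.1.2⟩
  have hU : ⨆ s, (U s : (Proj 𝒜).Opens) = ⊤ := by
    have := (Proj.affineOpenCover 𝒜)
    apply Proj.iSup_basicOpen_eq_top 𝒜 (fun s : ι => (s.2 : A))
    rw [toIdeal_irrelevant_le]
    intro i hi x hx
    exact Ideal.subset_span ⟨⟨⟨i, hi⟩, ⟨x, hx⟩⟩, rfl⟩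
  have hprop := IsClosedImmersion.hasAffineProperty
  refine (hprop.iff_of_iSup_eq_top U hU).mpr ?_
  rintro ⟨i, s, hs⟩
  constructor
  · exact Proj.isAffineOpen_basicOpen ℬ _ (f.2 hs) i.2
  · have h1 := Proj.awayToSection_comp_appLE f h hs
    have h2 : Function.Surjective
        (Scheme.Hom.appLE (Proj.map f h) (Proj.basicOpen 𝒜 s) (Proj.basicOpen ℬ (f s))
          (by rfl)).hom := by
      have h3 : Function.Surjective (Proj.awayToSection ℬ (f s)).hom :=
        (ConcreteCategory.bijective_of_isIso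
          (Proj.basicOpenIsoAway ℬ (f s) (f.2 hs) i.2).hom).2
      have h4 := congrArg (fun g => g.hom) h1
      intro z
      obtain ⟨w, rfl⟩ := h3 z
      obtain ⟨v, rfl⟩ := awayMap_surjective f hf s hs w
      refine ⟨(Proj.awayToSection 𝒜 s).hom v, ?_⟩
      exact DFunLike.congr_fun h4 v
    have h5 : Function.Surjective (Scheme.Hom.app (Proj.map f h) (Proj.basicOpen 𝒜 s)).hom := by
      rw [Scheme.Hom.app_eq_appLE]
      exact h2
    have h6 : ∀ V : (Proj 𝒜).Opens, V = Proj.basicOpen 𝒜 s →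
        Function.Surjective (Scheme.Hom.app (Proj.map f h) V).hom := by
      rintro _ rfl
      exact h5
    rw [morphismRestrict_appTop]
    have h7 := h6 ((Proj.basicOpen 𝒜 s).ι ''ᵁ ⊤) (Scheme.Opens.ι_image_top _)
    have h8 : Function.Bijective ((Proj ℬ).presheaf.map (eqToHom
        (image_morphismRestrict_preimage (Proj.map f h) (Proj.basicOpen 𝒜 s) ⊤)).op).hom :=
      ConcreteCategory.bijective_of_isIso _
    intro z
    obtain ⟨w, rfl⟩ := h8.2 z
    obtain ⟨v, rfl⟩ := h7 w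
    exact ⟨v, rfl⟩

end Pool.Agent.Lib.MP_43d240_ag.FRZ
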