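import Pool.Agent.Lib.MP_43d240_ag.FRZ.Defs
import Pool.Agent.Lib.MP_43d240_ag.FRZ.H32.Closed

/-!
# The scheme `Proj B`: integral, proper over `k`, closed in projective space, covered by charts
-/

set_option linter.all false

open AlgebraicGeometry CategoryTheory HomogeneousIdeal Polynomial

namespace Pool.Agent.Lib.MP_43d240_ag.FRZ

variable (k : Type) {K : Type} [Field k] [Field K] [Algebra k K] {M : ℕ} (y : Fin (M + 1) → K)

/-- The scheme `X = Proj k[y_0 τ, …, y_M τ]`. -/
noncomputable def PX : Scheme.{0} := Proj (gr k y)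

/-- The structure morphism. -/
noncomputable def strX : PX k y ⟶ Spec (CommRingCat.of k) :=
  Proj.toSpecZero (gr k y) ≫ Spec.map (CommRingCat.ofHom (algebraMap k (gr k y 0)))

lemma gr_zero_bijective : Function.Bijective (algebraMap k (gr k y 0)) := by
  constructor
  · intro a b h
    have h1 := congrArg (fun z : gr k y 0 => (((z : SB k y) : K[X])).coeff 0) h
    have h2 : ∀ r : k, (((algebraMap k (gr k y 0) r : gr k y 0) : SB k y) : K[X]) =
        C (algebraMap k K r) := fun r => rfl
    simp only [h2, coeff_C_zero] at h1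
    exact (algebraMap k K).injective h1
  · rintro ⟨b, hb⟩
    obtain ⟨c, hc⟩ := hb
    obtain ⟨p, rfl⟩ := ev_surjective k y b
    -- the constant coefficient
    refine ⟨p.coeff 0, ?_⟩
    apply Subtype.ext
    apply Subtype.ext
    have h1 : ((algebraMap k (gr k y 0) (p.coeff 0) : SB k y) : K[X]) =
        C (algebraMap k K (p.coeff 0)) := by
      rfl
    rw [h1]
    have h2 : ((ev k y p : SB k y) : K[X]).coeff 0 = algebraMap k K (p.coeff 0) := by
      have h3 : (Polynomial.constantCoeff.comp
          ((SB k y).val.toRingHom.comp (ev k y).toRingHom) : MvPolynomial (Fin (M + 1)) k →+* K) =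
          (algebraMap k K).comp MvPolynomial.constantCoeff := by
        apply MvPolynomial.ringHom_ext
        · intro r
          simp
        · intro i
          simp [ev]
      have := DFunLike.congr_fun h3 p
      simpa [MvPolynomial.constantCoeff_eq] using this
    show C (algebraMap k K (p.coeff 0)) = ((ev k y p : SB k y) : K[X])
    rw [hc] at h2 ⊢
    rw [← h2, coeff_monomial, if_pos rfl]
    rfl

instance : Algebra.FiniteType k (SB k y) :=
  Algebra.FiniteType.of_surjective (ev k y) (ev_surjective k y)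

instance : Algebra.FiniteType (gr k y 0) (SB k y) := by
  have : IsScalarTower k (gr k y 0) (SB k y) := ⟨fun r a b => by
    show ((r • a : gr k y 0) : SB k y) * b = r • ((a : SB k y) * b)
    rw [Submodule.coe_smul, smul_mul_assoc]⟩
  exact Algebra.FiniteType.of_restrictScalars_finiteType k (gr k y 0) (SB k y)

instance isProper_strX : IsProper (strX k y) := by
  have h1 : IsIso (CommRingCat.ofHom (algebraMap k (gr k y 0)) :
      CommRingCat.of k ⟶ CommRingCat.of (gr k y 0)) := by
    rw [ConcreteCategory.isIso_iff_bijective]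
    exact gr_zero_bijective k y
  have h2 : IsIso (Spec.map (CommRingCat.ofHom (algebraMap k (gr k y 0)) :
      CommRingCat.of k ⟶ CommRingCat.of (gr k y 0))) := inferInstance
  have h3 : IsProper (Proj.toSpecZero (gr k y)) := inferInstance
  exact (MorphismProperty.cancel_right_of_respectsIso @IsProper _ _).mpr h3

/-- The graded surjection from the polynomial ring. -/
noncomputable def evG [GradedAlgebra (MvPolynomial.homogeneousSubmodule (Fin (M + 1)) k)] :
    (MvPolynomial.homogeneousSubmodule (Fin (M + 1)) k) →+*ᵍ (gr k y) where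
  toRingHom := (ev k y).toRingHom
  map_mem := fun h => ev_homogeneous k y h

theorem closed_clause [GradedAlgebra (MvPolynomial.homogeneousSubmodule (Fin (M + 1)) k)] :
    ∃ (i : PX k y ⟶ Proj (MvPolynomial.homogeneousSubmodule (Fin (M + 1)) k)),
      IsClosedImmersion i :=
  ⟨Proj.map (evG k y) (irrelevant_le_of_surjective _ (ev_surjective k y)),
    isClosedImmersion_map _ (ev_surjective k y) _⟩

/-! ## The cover by the charts -/

variable {k y}

lemma T_mul_mem {N : ℕ} {b : K} (hb : b ∈ Submodule.span k (Set.range y) ^ N) :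
    ∃ s : SB k y, (s : K[X]) = monomial N b := by
  induction hb using Submodule.pow_induction_on_left' with
  | algebraMap r => exact ⟨algebraMap k _ r, rfl⟩
  | add a b i ha hb iha ihb =>
    obtain ⟨s, hs⟩ := iha
    obtain ⟨t, ht⟩ := ihb
    exact ⟨s + t, by rw [Subalgebra.coe_add, hs, ht, map_add]⟩
  | mem_mul m hm i x hx ih =>
    obtain ⟨s, hs⟩ := ih
    have h1 : ∃ t : SB k y, (t : K[X]) = monomial 1 m := by
      induction hm using Submodule.span_induction with
      | mem z hz => obtain ⟨j, rfl⟩ := hz; exact ⟨T k y j, rfl⟩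
      | zero => exact ⟨0, by simp⟩
      | add a b _ _ iha ihb =>
        obtain ⟨s, hs⟩ := iha
        obtain ⟨t, ht⟩ := ihb
        exact ⟨s + t, by rw [Subalgebra.coe_add, hs, ht, map_add]⟩
      | smul r a _ iha =>
        obtain ⟨s, hs⟩ := iha
        exact ⟨r • s, by rw [Subalgebra.coe_smul, hs, smul_monomial]⟩
    obtain ⟨t, ht⟩ := h1
    exact ⟨t * s, by rw [Subalgebra.coe_mul, hs, ht, monomial_mul_monomial, add_comm 1 i]⟩

lemma T_ideal_mem (P : Ideal (SB k y)) {I : Set (Fin (M + 1))} (hP : ∀ i ∈ I, T k y i ∈ P)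
    {N : ℕ} {z : K}
    (hz : z ∈ Submodule.span k (y '' I) * Submodule.span k (Set.range y) ^ N) :
    ∃ s ∈ P, (s : K[X]) = monomial (N + 1) z := by
  induction hz using Submodule.mul_induction_on' with
  | mem_mul_mem a ha b hb =>
    obtain ⟨t, ht⟩ := T_mul_mem hb
    have h1 : ∃ s ∈ P, (s : K[X]) = monomial 1 a := by
      induction ha using Submodule.span_induction with
      | mem z hz => obtain ⟨j, hj, rfl⟩ := hz; exact ⟨T k y j, hP j hj, rfl⟩
      | zero => exact ⟨0, P.zero_mem, by simp⟩
      | add a b _ _ iha ihb =>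
        obtain ⟨s, hs, hs'⟩ := iha
        obtain ⟨t, ht, ht'⟩ := ihb
        exact ⟨s + t, P.add_mem hs ht, by rw [Subalgebra.coe_add, hs', ht', map_add]⟩
      | smul r a _ iha =>
        obtain ⟨s, hs, hs'⟩ := iha
        exact ⟨r • s, P.smul_of_tower_mem r hs, by
          rw [Subalgebra.coe_smul, hs', smul_monomial]⟩
    obtain ⟨s, hs, hs'⟩ := h1
    exact ⟨s * t, P.mul_mem_right _ hs, by
      rw [Subalgebra.coe_mul, hs', ht, monomial_mul_monomial, add_comm 1 N]⟩
  | add a ha b hb iha ihb =>
    obtain ⟨s, hs, hs'⟩ := iha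
    obtain ⟨t, ht, ht'⟩ := ihb
    exact ⟨s + t, P.add_mem hs ht, by rw [Subalgebra.coe_add, hs', ht', map_add]⟩

lemma adjoin_T : Algebra.adjoin (gr k y 0) (Set.range (T k y)) = ⊤ := by
  rw [_root_.eq_top_iff]
  rintro b -
  obtain ⟨p, rfl⟩ := ev_surjective k y b
  induction p using MvPolynomial.induction_on with
  | C r =>
    rw [ev, MvPolynomial.aeval_C]
    have : algebraMap k (SB k y) r = algebraMap (gr k y 0) (SB k y) (algebraMap k _ r) := rfl
    rw [this]
    exact Subalgebra.algebraMap_mem _ _
  | add p q hp hq => rw [map_add]; exact add_mem hp hq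
  | mul_X p i hp =>
    rw [map_mul]
    refine mul_mem hp ?_
    rw [ev, MvPolynomial.aeval_X]
    exact Algebra.subset_adjoin ⟨i, rfl⟩

theorem iSup_basicOpen_all : ⨆ i, Proj.basicOpen (gr k y) (T k y i) = ⊤ :=
  Proj.iSup_basicOpen_eq_top' (gr k y) (T k y) (fun i => ⟨1, T_mem k y i⟩) adjoin_T

theorem iSup_basicOpen_of_covers {I : Set (Fin (M + 1))} (hI : Covers k y I) :
    ⨆ i : I, Proj.basicOpen (gr k y) (T k y i) = ⊤ := by
  rw [_root_.eq_top_iff]
  rintro x -
  have hx : x ∈ (⨆ i, Proj.basicOpen (gr k y) (T k y i) : (Proj (gr k y)).Opens) := by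
    rw [iSup_basicOpen_all]; trivial
  rw [TopologicalSpace.Opens.mem_iSup] at hx ⊢
  obtain ⟨j, hj⟩ := hx
  rw [Proj.mem_basicOpen] at hj
  by_contra hcon
  push Not at hcon
  have hP : ∀ i ∈ I, T k y i ∈ x.asHomogeneousIdeal.toIdeal := by
    intro i hi
    have := hcon ⟨i, hi⟩
    rw [Proj.mem_basicOpen, not_not] at this
    exact this
  obtain ⟨N, hN⟩ := hI j
  obtain ⟨s, hs, hs'⟩ := T_ideal_mem _ hP hN
  have h1 : s = T k y j ^ (N + 1) := by
    apply Subtype.ext
    rw [hs', SubmonoidClass.coe_pow, coe_T, monomial_pow, one_mul]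
  rw [h1] at hs
  exact hj (x.isPrime.mem_of_pow_mem _ hs)

/-! ## Integrality -/

instance : IsDomain (SB k y) := inferInstance

lemma T_ne_zero (hy : ∀ i, y i ≠ 0) (i : Fin (M + 1)) : T k y i ≠ 0 := by
  intro h
  have h1 := congrArg (fun b : SB k y => (b : K[X]).coeff 1) h
  simp at h1
  exact hy i h1

theorem isReduced_PX : IsReduced (PX k y) := by
  have h : ∀ x : PX k y, _root_.IsReduced ((PX k y).presheaf.stalk x) := by
    intro x
    let P := (x : ProjectiveSpectrum (gr k y)).asHomogeneousIdeal.toIdeal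
    have hP : P.IsPrime := (x : ProjectiveSpectrum (gr k y)).isPrime
    have h1 : IsDomain (Localization.AtPrime P) :=
      IsLocalization.isDomain_localization (Ideal.primeCompl_le_nonZeroDivisors P)
    have h2 : _root_.IsReduced (HomogeneousLocalization.AtPrime (gr k y) P) := by
      refine ⟨fun a ha => ?_⟩
      obtain ⟨n, hn⟩ := ha
      apply HomogeneousLocalization.val_injective
      have h3 := congrArg HomogeneousLocalization.val hn
      rw [HomogeneousLocalization.val_pow, HomogeneousLocalization.val_zero] at h3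
      rw [HomogeneousLocalization.val_zero]
      exact _root_.IsReduced.eq_zero _ ⟨n, h3⟩
    exact isReduced_of_injective (Proj.stalkIso (gr k y) x).hom.hom
      (ConcreteCategory.bijective_of_isIso (Proj.stalkIso (gr k y) x).hom).1
  exact isReduced_of_isReduced_stalk _

/-- The generic point. -/
noncomputable def eta (hy : ∀ i, y i ≠ 0) : ProjectiveSpectrum (gr k y) where
  asHomogeneousIdeal := ⊥
  isPrime := by
    show (⊥ : Ideal (SB k y)).IsPrime
    exact Ideal.isPrime_bot
  not_irrelevant_le := by
    intro h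
    have h1 : T k y 0 ∈ HomogeneousIdeal.irrelevant (gr k y) := by
      rw [HomogeneousIdeal.mem_irrelevant_iff]
      exact DirectSum.decompose_of_mem_ne _ (T_mem k y 0) Nat.one_ne_zero
    have h2 := h h1
    exact T_ne_zero hy 0 h2

theorem irreducibleSpace_PX (hy : ∀ i, y i ≠ 0) : IrreducibleSpace (PX k y) := by
  have h1 : closure ({eta hy} : Set (ProjectiveSpectrum (gr k y))) = Set.univ := by
    rw [Set.eq_univ_iff_forall]
    intro x
    rw [← ProjectiveSpectrum.le_iff_mem_closure]
    show (eta hy).asHomogeneousIdeal ≤ x.asHomogeneousIdeal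
    exact bot_le
  have h2 : IsIrreducible (Set.univ : Set (ProjectiveSpectrum (gr k y))) := by
    rw [← h1]
    exact isIrreducible_singleton.closure
  have : IrreducibleSpace (ProjectiveSpectrum (gr k y)) := by
    rw [irreducibleSpace_def]
    exact h2
  exact this

theorem isIntegral_PX (hy : ∀ i, y i ≠ 0) : IsIntegral (PX k y) := by
  have := isReduced_PX (k := k) (y := y)
  have := irreducibleSpace_PX (k := k) hy
  exact isIntegral_of_irreducibleSpace_of_isReduced _

end Pool.Agent.Lib.MP_43d240_ag.FRZ
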